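import Mathlib

set_option autoImplicit false

namespace Pool.Agent.Results.MP_bb4aa0_pr.Counter

open Finset SimpleGraph

/-- The forests of `G` with `k` components: acyclic edge sets of `G` with `|V| - k` edges. -/
def forests {n : ℕ} (G : SimpleGraph (Fin n)) (k : ℕ) : Set (Finset (Sym2 (Fin n))) :=
  {F | (F : Set (Sym2 (Fin n))) ⊆ G.edgeSet ∧ (fromEdgeSet (F : Set (Sym2 (Fin n)))).IsAcyclic ∧
    F.card + k = n}

/-- The probability that a uniform forest of `G` with `k` components contains `e`. -/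
noncomputable def prob {n : ℕ} (G : SimpleGraph (Fin n)) (k : ℕ) (e : Sym2 (Fin n)) : ℚ :=
  ({F ∈ forests G k | e ∈ F}.ncard : ℚ) / (forests G k).ncard

def G : SimpleGraph (Fin 7) where
  Adj u v := u ≠ v ∧ (u < 2 ∨ v < 2)
  symm := ⟨fun _ _ h => ⟨h.1.symm, h.2.symm⟩⟩
  loopless := ⟨fun _ h => h.1 rfl⟩

instance : DecidableRel G.Adj := fun u v => inferInstanceAs (Decidable (u ≠ v ∧ (u < 2 ∨ v < 2)))

theorem const {V : Type} (K : SimpleGraph V) (S : V → Prop) (h : ∀ a b, K.Adj a b → S a → S b)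
    {u v : V} (r : K.Reachable u v) (hu : S u) : S v := by
  obtain ⟨p⟩ := r
  induction p with
  | nil => exact hu
  | cons a _ ih => exact ih (h _ _ a hu)

theorem bridge (H : SimpleGraph (Fin 7)) (c d w : Fin 7) (hH : ∀ a b, H.Adj a b →
    a = c ∨ a = d ∨ b = c ∨ b = d) (hw : H.Adj c w)
    (h : ∀ u, H.Adj c u → H.Adj d u → ¬H.Adj c d ∧ ∀ v, H.Adj c v → H.Adj d v → u = v) :
    H.IsBridge s(c, w) := by
  intro r
  by_cases hd : w = d ∨ H.Adj d w
  · have := const _ (fun x => x = c ∨ (H.Adj c x ∧ x ≠ w)) (fun a b hab ha => ?_) r (.inl rfl)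
    · rcases this with h1 | h1
      exacts [hw.ne h1.symm, h1.2 rfl]
    simp only [deleteEdges_adj, Set.mem_singleton_iff] at hab
    obtain ⟨hab, hne⟩ := hab
    rcases ha with rfl | ⟨h1, h2⟩
    · exact .inr ⟨hab, fun e => hne (e ▸ rfl)⟩
    rcases hH a b hab with rfl | rfl | rfl | rfl
    · exact (h1.ne rfl).elim
    · exact ((h w hw (hd.resolve_left h2.symm)).1 h1).elim
    · exact .inl rfl
    · rcases hd with rfl | hd
      · exact ((h a h1 hab.symm).1 hw).elim
      · exact (h2 ((h a h1 hab.symm).2 w hw hd)).elim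
  · refine const _ (fun x => x ≠ w) (fun a b hab _ e => ?_) r hw.ne rfl
    simp only [deleteEdges_adj, Set.mem_singleton_iff] at hab
    obtain ⟨hab, hne⟩ := hab
    subst e
    rcases hH a b hab with rfl | rfl | rfl | rfl
    exacts [hne rfl, hd (.inr hab), hw.ne rfl, hd (.inl rfl)]

theorem acyc (H : SimpleGraph (Fin 7)) (hH : H ≤ G) : H.IsAcyclic ↔
    ∀ u, H.Adj 0 u → H.Adj 1 u → ¬H.Adj 0 1 ∧ ∀ v, H.Adj 0 v → H.Adj 1 v → u = v := by
  have h0 : ∀ a b, G.Adj a b → a = 0 ∨ a = 1 ∨ b = 0 ∨ b = 1 := by decide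
  constructor
  · intro h u h1 h2
    have key : ∀ p : H.Walk 0 1, p.IsPath → Walk.cons h1 (.cons h2.symm .nil) = p := fun p hp =>
      congrArg Subtype.val ((h.subsingleton_path 0 1).elim ⟨_, by simp [h1.ne, h2.ne']⟩ ⟨p, hp⟩)
    refine ⟨fun h3 => ?_, fun v h3 h4 => ?_⟩
    · simpa using congrArg Walk.length (key (.cons h3 .nil) (by simp))
    · simpa using congrArg Walk.support
        (key (.cons h3 (.cons h4.symm .nil)) (by simp [h3.ne, h4.ne']))
  · intro h
    have b0 := fun w hw => bridge H 0 1 w (fun a b hab => h0 a b (hH hab)) hw h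
    have b1 := fun w hw => bridge H 1 0 w (fun a b hab => by have := h0 a b (hH hab); tauto) hw
      fun u h1 h2 => ⟨fun h3 => (h u h2 h1).1 h3.symm, fun v h3 h4 => (h u h2 h1).2 v h4 h3⟩
    rw [isAcyclic_iff_forall_isBridge]
    rintro ⟨a, b⟩ hab
    rcases h0 a b (hH hab) with rfl | rfl | rfl | rfl
    exacts [b0 b hab, b1 b hab, (Sym2.eq_swap (a := 0) (b := a)).subst (b0 a (H.adj_symm hab)),
      (Sym2.eq_swap (a := 1) (b := a)).subst (b1 a (H.adj_symm hab))]

def E : Finset (Sym2 (Fin 7)) :=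
  {s(0, 1), s(0, 2), s(0, 3), s(0, 4), s(0, 5), s(0, 6), s(1, 2), s(1, 3), s(1, 4), s(1, 5), s(1, 6)}

def L (j : ℕ) : Finset (Finset (Sym2 (Fin 7))) := (E.powersetCard j).filter fun F =>
  ∀ u, s(0, u) ∈ F → s(1, u) ∈ F → s(0, 1) ∉ F ∧ ∀ v, s(0, v) ∈ F → s(1, v) ∈ F → u = v

theorem forests_eq (j k : ℕ) (h : j + k = 7) : forests G k = L j := by
  have hE : G.edgeSet = E := by
    ext ⟨a, b⟩
    revert a b
    change ∀ a b, G.Adj a b ↔ s(a, b) ∈ E
    decide
  ext F
  simp only [forests, L, Set.mem_ofPred_eq, mem_coe, mem_filter, mem_powersetCard, ← coe_subset,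
    ← hE]
  rw [and_assoc, and_comm (b := F.card + k = 7), show F.card + k = 7 ↔ F.card = j by omega]
  refine and_congr_right fun hF => and_congr_right fun _ => ?_
  have e : ∀ a b, (fromEdgeSet (F : Set (Sym2 (Fin 7)))).Adj a b ↔ s(a, b) ∈ F := fun a b =>
    ⟨fun h => h.1, fun h => ⟨h, G.ne_of_adj (hF h)⟩⟩
  rw [acyc (fromEdgeSet (F : Set (Sym2 (Fin 7)))) fun a b h => hF h.1]
  simp only [e]

theorem prob_eq (j k : ℕ) (h : j + k = 7) :
    prob G k s(0, 1) = ((L j).filter fun F => s(0, 1) ∈ F).card / (L j).card := by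
  rw [prob, forests_eq j k h, Set.ncard_coe_finset, ← Set.ncard_coe_finset (filter _ _), coe_filter]
  rfl

theorem result : ∃ (n : ℕ) (G : SimpleGraph (Fin n)) (e : Sym2 (Fin n)) (k : ℕ), G.Connected ∧
    e ∈ G.edgeSet ∧ 1 ≤ k ∧ k < n ∧ prob G k e < prob G (k + 1) e := by
  refine ⟨7, G, s(0, 1), 1, ?_, by decide, le_rfl, by norm_num, ?_⟩
  · rw [connected_iff_exists_forall_reachable]
    refine ⟨0, fun w => ?_⟩
    rcases eq_or_ne 0 w with rfl | h
    exacts [.refl _, Adj.reachable ⟨h, .inl (by decide)⟩]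
  · rw [prob_eq 6 1 rfl, prob_eq 5 2 rfl,
      show ((L 6).filter fun F => s(0, 1) ∈ F).card = 32 by decide +kernel,
      show ((L 5).filter fun F => s(0, 1) ∈ F).card = 80 by decide +kernel,
      show (L 6).card = 112 by decide +kernel, show (L 5).card = 272 by decide +kernel]
    norm_num

end Pool.Agent.Results.MP_bb4aa0_pr.Counter
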